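import Mathlib

set_option autoImplicit false

namespace Q21.SS

open Equiv

variable {X : Type} 

/-- The permutation of the words acting as `σ` on the first letter and as `s x` on the rest of the
word after the letter `x`. -/
def mkf (σ : X → X) (s : X → List X → List X) : List X → List X
  | [] => []
  | x :: w => σ x :: s x w

def mk (σ : Perm X) (s : X → Perm (List X)) : Perm (List X) where
  toFun := mkf σ (fun x => s x)
  invFun := mkf (σ.symm) (fun x => (s (σ.symm x)).symm)
  left_inv w := by
    cases w with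
    | nil => rfl
    | cons x w => simp [mkf]
  right_inv w := by
    cases w with
    | nil => rfl
    | cons x w => simp [mkf]

theorem mk_nil (σ : Perm X) (s : X → Perm (List X)) : mk σ s [] = [] := rfl
theorem mk_cons (σ : Perm X) (s : X → Perm (List X)) (x : X) (w : List X) :
    mk σ s (x :: w) = σ x :: s x w := rfl

theorem mk_mul (σ τ : Perm X) (s t : X → Perm (List X)) :
    mk σ s * mk τ t = mk (σ * τ) (fun x => s (τ x) * t x) := by
  ext1 w
  cases w <;> rfl

theorem mk_one : mk (1 : Perm X) (1 : X → Perm (List X)) = 1 := by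
  ext1 w
  cases w <;> rfl

theorem mk_inv (σ : Perm X) (s : X → Perm (List X)) :
    (mk σ s)⁻¹ = mk σ⁻¹ (fun x => (s (σ⁻¹ x))⁻¹) := by
  ext1 w
  cases w <;> rfl

theorem mk_inj {σ τ : Perm X} {s t : X → Perm (List X)} (h : mk σ s = mk τ t) : σ = τ ∧ s = t := by
  constructor
  · ext x
    have := congrArg (fun g : Perm (List X) => g [x]) h
    simp only [mk_cons] at this
    exact (List.cons.inj this).1
  · funext x
    ext1 w
    have := congrArg (fun g : Perm (List X) => g (x :: w)) h
    simp only [mk_cons] at this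
    exact (List.cons.inj this).2

/-- The elements of the first level stabiliser. -/
def ψ : (X → Perm (List X)) →* Perm (List X) where
  toFun s := mk 1 s
  map_one' := mk_one
  map_mul' s t := by rw [mk_mul]; rfl

theorem ψ_apply (s : X → Perm (List X)) : ψ s = mk 1 s := rfl

theorem ψ_injective : Function.Injective (ψ (X := X)) := fun _ _ h => (mk_inj h).2

theorem conj_ψ (σ : Perm X) (r s : X → Perm (List X)) :
    mk σ r * ψ s * (mk σ r)⁻¹ = ψ (fun x => r (σ⁻¹ x) * s (σ⁻¹ x) * (r (σ⁻¹ x))⁻¹) := by
  rw [ψ_apply, ψ_apply, mk_inv, mk_mul, mk_mul]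
  simp

/-- Tree automorphisms all of whose sections lie in `Γ`. -/
def Wr (Γ : Subgroup (Perm (List X))) : Subgroup (Perm (List X)) where
  carrier := {g | ∃ (σ : Perm X) (s : X → Perm (List X)), g = mk σ s ∧ ∀ x, s x ∈ Γ}
  mul_mem' := by
    rintro _ _ ⟨σ, s, rfl, hs⟩ ⟨τ, t, rfl, ht⟩
    exact ⟨_, _, mk_mul _ _ _ _, fun x => Γ.mul_mem (hs _) (ht _)⟩
  one_mem' := ⟨1, 1, mk_one.symm, fun _ => Γ.one_mem⟩
  inv_mem' := by
    rintro _ ⟨σ, s, rfl, hs⟩
    exact ⟨_, _, mk_inv _ _, fun x => Γ.inv_mem (hs _)⟩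

/-- `Γ` is self-similar. -/
def SelfSim (Γ : Subgroup (Perm (List X))) : Prop := Γ ≤ Wr Γ

theorem SelfSim.sec {Γ : Subgroup (Perm (List X))} (h : SelfSim Γ) {σ : Perm X}
    {s : X → Perm (List X)} (hg : mk σ s ∈ Γ) (x : X) : s x ∈ Γ := by
  obtain ⟨τ, t, h1, h2⟩ := h hg
  rw [(mk_inj h1).2]
  exact h2 x

theorem SelfSim.exists {Γ : Subgroup (Perm (List X))} (h : SelfSim Γ) {g : Perm (List X)}
    (hg : g ∈ Γ) : ∃ (σ : Perm X) (s : X → Perm (List X)), g = mk σ s ∧ ∀ x, s x ∈ Γ := h hg

/-- Automorphisms of the rooted tree, in terms of the initial-segment order. -/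
def IsAut (g : Perm (List X)) : Prop := ∀ v w : List X, v <+: w ↔ g v <+: g w

theorem SelfSim.isAut {Γ : Subgroup (Perm (List X))} (h : SelfSim Γ) {g : Perm (List X)}
    (hg : g ∈ Γ) : IsAut g := by
  intro v
  induction v generalizing g with
  | nil =>
    intro w
    obtain ⟨σ, s, rfl, -⟩ := h.exists hg
    simp [mk_nil]
  | cons x v ih =>
    intro w
    obtain ⟨σ, s, rfl, hs⟩ := h.exists hg
    cases w with
    | nil => simp [mk_nil, mk_cons]
    | cons y w =>
      rw [mk_cons, mk_cons, List.cons_prefix_cons, List.cons_prefix_cons]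
      constructor
      · rintro ⟨rfl, h2⟩
        exact ⟨rfl, (ih (hs x) w).1 h2⟩
      · rintro ⟨h1, h2⟩
        have := σ.injective h1
        subst this
        exact ⟨rfl, (ih (hs x) w).2 h2⟩

theorem SelfSim.length {Γ : Subgroup (Perm (List X))} (h : SelfSim Γ) {g : Perm (List X)}
    (hg : g ∈ Γ) (v : List X) : (g v).length = v.length := by
  induction v generalizing g with
  | nil =>
    obtain ⟨σ, s, rfl, -⟩ := h.exists hg
    rfl
  | cons x v ih =>
    obtain ⟨σ, s, rfl, hs⟩ := h.exists hg
    rw [mk_cons, List.length_cons, List.length_cons, ih (hs x)]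

section at_def
variable [DecidableEq X]

/-- The automorphism acting as `h` below the vertex `v` and trivially elsewhere. -/
def at_ : List X → Perm (List X) → Perm (List X)
  | [], h => h
  | x :: v, h => ψ (Pi.mulSingle x (at_ v h))

theorem at_nil (h : Perm (List X)) : at_ [] h = h := rfl
theorem at_cons (x : X) (v : List X) (h : Perm (List X)) :
    at_ (x :: v) h = ψ (Pi.mulSingle x (at_ v h)) := rfl

theorem at_mul (v : List X) (h k : Perm (List X)) : at_ v (h * k) = at_ v h * at_ v k := by
  induction v with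
  | nil => rfl
  | cons x v ih => rw [at_cons, at_cons, at_cons, ih, ← map_mul, ← Pi.mulSingle_mul]

theorem at_one (v : List X) : at_ v (1 : Perm (List X)) = 1 := by
  induction v with
  | nil => rfl
  | cons x v ih => rw [at_cons, ih, Pi.mulSingle_one, map_one]

/-- `at_ v` as a homomorphism. -/
def atH (v : List X) : Perm (List X) →* Perm (List X) where
  toFun := at_ v
  map_one' := at_one v
  map_mul' := at_mul v

theorem at_inv (v : List X) (h : Perm (List X)) : at_ v h⁻¹ = (at_ v h)⁻¹ := map_inv (atH v) h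

theorem at_append (v w : List X) (h : Perm (List X)) : at_ (v ++ w) h = at_ v (at_ w h) := by
  induction v with
  | nil => rfl
  | cons x v ih => rw [List.cons_append, at_cons, at_cons, ih]

theorem at_injective (v : List X) : Function.Injective (at_ v) := by
  induction v with
  | nil => exact fun _ _ h => h
  | cons x v ih =>
    intro h k hk
    rw [at_cons, at_cons] at hk
    exact ih (Pi.mulSingle_injective x (ψ_injective hk))

/-- `at_ v h` acts trivially off the subtree of `v`. -/
theorem at_apply_of_not (v : List X) (h : Perm (List X)) (w : List X) (hw : ¬ v <+: w) :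
    at_ v h w = w := by
  induction v generalizing w with
  | nil => exact absurd List.nil_prefix hw
  | cons x v ih =>
    cases w with
    | nil => rfl
    | cons y w =>
      rw [at_cons, ψ_apply, mk_cons]
      by_cases hxy : y = x
      · subst hxy
        rw [Pi.mulSingle_eq_same, ih]
        · rfl
        · intro h2
          exact hw (List.cons_prefix_cons.2 ⟨rfl, h2⟩)
      · rw [Pi.mulSingle_eq_of_ne hxy]
        rfl

theorem at_apply_append (v : List X) (h : Perm (List X)) (w : List X) :
    at_ v h (v ++ w) = v ++ h w := by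
  induction v with
  | nil => rfl
  | cons x v ih =>
    rw [at_cons, ψ_apply, List.cons_append, mk_cons, Pi.mulSingle_eq_same, ih]
    rfl

/-- Conjugation of a rigid element. -/
theorem SelfSim.conj_at {Γ : Subgroup (Perm (List X))} (hΓ : SelfSim Γ) {g : Perm (List X)}
    (hg : g ∈ Γ) (v : List X) : ∃ k ∈ Γ, ∀ h : Perm (List X),
      g * at_ v h * g⁻¹ = at_ (g v) (k * h * k⁻¹) := by
  induction v generalizing g with
  | nil =>
    obtain ⟨σ, s, rfl, -⟩ := hΓ.exists hg
    exact ⟨_, hg, fun h => rfl⟩
  | cons x v ih =>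
    obtain ⟨σ, s, rfl, hs⟩ := hΓ.exists hg
    obtain ⟨k, hk, hc⟩ := ih (hs x)
    refine ⟨k, hk, fun h => ?_⟩
    rw [at_cons, mk_cons, at_cons, conj_ψ, ← hc]
    congr 1
    funext y
    by_cases hy : y = σ x
    · subst hy
      simp
    · have h2 : σ⁻¹ y ≠ x := fun h3 => hy (by rw [← h3]; simp)
      rw [Pi.mulSingle_eq_of_ne hy, Pi.mulSingle_eq_of_ne h2]
      simp

/-- The projection of the first level stabiliser of `M` to the coordinate `x`. -/
def pr (x : X) (M : Subgroup (Perm (List X))) : Subgroup (Perm (List X)) :=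
  (M.comap ψ).map (Pi.evalMonoidHom _ x)

theorem mem_pr {x : X} {M : Subgroup (Perm (List X))} {h : Perm (List X)} :
    h ∈ pr x M ↔ ∃ s, ψ s ∈ M ∧ s x = h := by
  constructor
  · rintro ⟨s, hs, rfl⟩
    exact ⟨s, hs, rfl⟩
  · rintro ⟨s, hs, rfl⟩
    exact ⟨s, hs, rfl⟩

theorem pr_mono {x : X} {M N : Subgroup (Perm (List X))} (h : M ≤ N) : pr x M ≤ pr x N := by
  intro g hg
  rw [mem_pr] at hg ⊢
  obtain ⟨s, hs, h2⟩ := hg
  exact ⟨s, h hs, h2⟩

/-- Elements of an iterated projection conjugate rigid elements as expected. -/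
theorem conj_of_mem_pr (x : X) (n : ℕ) (M : Subgroup (Perm (List X))) (g : Perm (List X))
    (hg : g ∈ (pr x)^[n] M) : ∃ m ∈ M, ∀ h : Perm (List X),
      m * at_ (List.replicate n x) h * m⁻¹ = at_ (List.replicate n x) (g * h * g⁻¹) := by
  induction n generalizing M with
  | zero => exact ⟨g, hg, fun h => rfl⟩
  | succ n ih =>
    rw [Function.iterate_succ_apply] at hg
    obtain ⟨m', hm', hc⟩ := ih (pr x M) hg
    rw [mem_pr] at hm'
    obtain ⟨s, hs, hsx⟩ := hm'
    refine ⟨ψ s, hs, fun h => ?_⟩
    rw [List.replicate_succ, at_cons, at_cons, ← hc, ← map_mul, ← map_inv, ← map_mul]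
    congr 1
    funext y
    by_cases hy : y = x
    · subst hy
      simp [hsx]
    · rw [Pi.mulSingle_eq_of_ne hy]
      simp [Pi.mulSingle_eq_of_ne hy]

end at_def

end Q21.SS
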