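import Mathlib
import Pool.Agent.Q21.SS.Core

set_option autoImplicit false

namespace Q21.SS

open Equiv

variable {X : Type}

theorem IsAut.mul {g h : Perm (List X)} (hg : IsAut g) (hh : IsAut h) : IsAut (g * h) :=
  fun v w => (hh v w).trans (hg _ _)
theorem IsAut.one : IsAut (1 : Perm (List X)) := fun _ _ => Iff.rfl
theorem IsAut.inv {g : Perm (List X)} (hg : IsAut g) : IsAut g⁻¹ := fun v w => by
  have := hg (g⁻¹ v) (g⁻¹ w)
  rw [show g (g⁻¹ v) = v from g.apply_symm_apply v,
    show g (g⁻¹ w) = w from g.apply_symm_apply w] at this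
  exact this.symm

theorem IsAut.len_le {g : Perm (List X)} (hg : IsAut g) (v : List X) :
    v.length ≤ (g v).length := by
  induction v using List.reverseRecOn with
  | nil => simp
  | append_singleton v x ih =>
    have h1 : g v <+: g (v ++ [x]) := (hg _ _).1 (List.prefix_append _ _)
    have h2 : g v ≠ g (v ++ [x]) := fun h => by
      have := g.injective h
      simp at this
    have h3 : (g v).length < (g (v ++ [x])).length := by
      rcases lt_or_eq_of_le h1.length_le with h | h
      · exact h
      · exact absurd (h1.eq_of_length h) h2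
    simp only [List.length_append, List.length_singleton]
    omega

theorem IsAut.len_eq {g : Perm (List X)} (hg : IsAut g) (v : List X) :
    (g v).length = v.length := by
  refine le_antisymm ?_ (hg.len_le v)
  have := hg.inv.len_le (g v)
  rwa [show g⁻¹ (g v) = v from g.symm_apply_apply v] at this

theorem IsAut.nil {g : Perm (List X)} (hg : IsAut g) : g [] = [] :=
  List.length_eq_zero_iff.1 (hg.len_eq [])

/-- The value on `v ++ w` starts with the value on `v`. -/
theorem IsAut.append {g : Perm (List X)} (hg : IsAut g) (v w : List X) :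
    g (v ++ w) = g v ++ (g (v ++ w)).drop v.length := by
  have h1 : g v <+: g (v ++ w) := (hg _ _).1 (List.prefix_append _ _)
  have h2 := List.prefix_iff_eq_append.1 h1
  rw [hg.len_eq] at h2
  exact h2.symm

/-- The section of a tree automorphism at a vertex. -/
def sec (g : Perm (List X)) (hg : IsAut g) (v : List X) : Perm (List X) where
  toFun w := (g (v ++ w)).drop v.length
  invFun w := (g⁻¹ (g v ++ w)).drop v.length
  left_inv w := by
    show ((g.symm (g v ++ (g (v ++ w)).drop v.length)).drop v.length) = w
    rw [← hg.append, g.symm_apply_apply, List.drop_left]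
  right_inv w := by
    show ((g (v ++ (g⁻¹ (g v ++ w)).drop v.length)).drop v.length) = w
    have h1 := hg.inv.append (g v) w
    rw [show g⁻¹ (g v) = v from g.symm_apply_apply v, hg.len_eq] at h1
    rw [← h1]
    show ((g (g.symm (g v ++ w))).drop v.length) = w
    rw [g.apply_symm_apply]
    conv_lhs => rw [← hg.len_eq v]
    rw [List.drop_left]

theorem sec_spec {g : Perm (List X)} (hg : IsAut g) (v w : List X) :
    g (v ++ w) = g v ++ sec g hg v w := hg.append v w

theorem sec_unique {g : Perm (List X)} (hg : IsAut g) (v : List X) {k : Perm (List X)}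
    (h : ∀ w, g (v ++ w) = g v ++ k w) : sec g hg v = k := by
  ext1 w
  have h1 := sec_spec hg v w
  rw [h w] at h1
  exact (List.append_cancel_left h1).symm

theorem sec_isAut {g : Perm (List X)} (hg : IsAut g) (v : List X) : IsAut (sec g hg v) := by
  intro w w'
  have h1 := hg (v ++ w) (v ++ w')
  rw [sec_spec hg, sec_spec hg, List.prefix_append_right_inj, List.prefix_append_right_inj] at h1
  exact h1

theorem IsAut.exists_mk {g : Perm (List X)} (hg : IsAut g) :
    ∃ σ : Perm X, g = mk σ (fun x => sec g hg [x]) := by
  have h1 : ∀ (g : Perm (List X)) (hg : IsAut g) (x : X), ∃ y, g [x] = [y] := fun g hg x =>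
    List.length_eq_one_iff.1 (hg.len_eq [x])
  choose f hf using h1 g hg
  choose f' hf' using h1 g⁻¹ hg.inv
  refine ⟨⟨f, f', fun x => ?_, fun x => ?_⟩, ?_⟩
  · have h2 : g⁻¹ (g [x]) = [x] := g.symm_apply_apply [x]
    rw [hf, hf'] at h2
    exact (List.cons.inj h2).1
  · have h2 : g (g⁻¹ [x]) = [x] := g.apply_symm_apply [x]
    rw [hf', hf] at h2
    exact (List.cons.inj h2).1
  · ext1 w
    cases w with
    | nil => exact hg.nil
    | cons x w =>
      have h2 := sec_spec hg [x] w
      rw [hf] at h2
      exact h2

end Q21.SS
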