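import Mathlib
import Pool.Agent.Q21.SS.Core

set_option autoImplicit false

namespace Q21.SS

open Equiv
open scoped commutatorElement

variable {X : Type} [DecidableEq X]

/-- The hypotheses from which branching is derived. -/
structure Reg (Γ : Subgroup (Perm (List X))) (x0 : X) : Prop where
  ss : SelfSim Γ
  tr : ∀ x, ∃ g ∈ Γ, g [x0] = [x]
  fr : ∀ g ∈ Γ, ∃ s, ψ s ∈ Γ ∧ s x0 = g
  ab : (⁅Γ, Γ⁆).relIndex Γ ≠ 0
  br : ∀ c ∈ ⁅Γ, Γ⁆, at_ [x0] c ∈ ⁅Γ, Γ⁆

variable {Γ : Subgroup (Perm (List X))} {x0 : X}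

theorem comm_le (Γ : Subgroup (Perm (List X))) : ⁅Γ, Γ⁆ ≤ Γ := by
  rw [Subgroup.commutator_le]
  intro g hg h hh
  exact Γ.mul_mem (Γ.mul_mem (Γ.mul_mem hg hh) (Γ.inv_mem hg)) (Γ.inv_mem hh)

theorem conj_mem_comm {g c : Perm (List X)} (hg : g ∈ Γ) (hc : c ∈ ⁅Γ, Γ⁆) :
    g * c * g⁻¹ ∈ ⁅Γ, Γ⁆ := by
  have h1 : ⁅g, c⁆ ∈ ⁅Γ, Γ⁆ := Subgroup.commutator_mem_commutator hg (comm_le Γ hc)
  have h2 : g * c * g⁻¹ = ⁅g, c⁆ * c := by
    rw [commutatorElement_def]; group
  rw [h2]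
  exact Subgroup.mul_mem _ h1 hc

theorem Reg.trans (h : Reg Γ x0) (v : List X) :
    ∃ g ∈ Γ, g (List.replicate v.length x0) = v := by
  induction hn : v.length generalizing v with
  | zero =>
    rw [List.length_eq_zero_iff] at hn
    subst hn
    exact ⟨1, Γ.one_mem, rfl⟩
  | succ n ih =>
    cases v with
    | nil => simp at hn
    | cons y v =>
      simp only [List.length_cons, Nat.add_right_cancel_iff] at hn
      obtain ⟨g, hg, hgy⟩ := h.tr y
      obtain ⟨σ, s, rfl, hs⟩ := h.ss.exists hg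
      rw [mk_cons] at hgy
      have hσ : σ x0 = y := (List.cons.inj hgy).1
      obtain ⟨k, hk, hkv⟩ := ih ((s x0)⁻¹ v) (by
        rw [h.ss.length (Γ.inv_mem (hs x0)), hn])
      obtain ⟨r, hr, hrk⟩ := h.fr k hk
      refine ⟨SS.mk σ s * ψ r, Γ.mul_mem hg hr, ?_⟩
      rw [Perm.mul_apply, List.replicate_succ, ψ_apply, mk_cons, mk_cons, hrk, hkv]
      rw [Perm.one_apply, hσ]
      congr 1
      exact (s x0).apply_symm_apply v

theorem Reg.transitive (h : Reg Γ x0) (v w : List X) (hvw : v.length = w.length) :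
    ∃ g ∈ Γ, g v = w := by
  obtain ⟨g, hg, h1⟩ := h.trans v
  obtain ⟨k, hk, h2⟩ := h.trans w
  refine ⟨k * g⁻¹, Γ.mul_mem hk (Γ.inv_mem hg), ?_⟩
  rw [Perm.mul_apply]
  have : g⁻¹ v = List.replicate v.length x0 := by
    rw [Perm.inv_eq_iff_eq, h1]
  rw [this, hvw, h2]

theorem Reg.at_one_mem (h : Reg Γ x0) (y : X) {c : Perm (List X)} (hc : c ∈ ⁅Γ, Γ⁆) :
    at_ [y] c ∈ ⁅Γ, Γ⁆ := by
  obtain ⟨g, hg, hgy⟩ := h.tr y
  obtain ⟨k, hk, hconj⟩ := h.ss.conj_at hg [x0]
  have h1 := hconj (k⁻¹ * c * k)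
  rw [hgy] at h1
  have h2 : k * (k⁻¹ * c * k) * k⁻¹ = c := by group
  rw [h2] at h1
  rw [← h1]
  refine conj_mem_comm hg (h.br _ ?_)
  have := conj_mem_comm (Γ.inv_mem hk) hc
  rwa [inv_inv] at this

theorem Reg.at_mem (h : Reg Γ x0) (v : List X) {c : Perm (List X)} (hc : c ∈ ⁅Γ, Γ⁆) :
    at_ v c ∈ ⁅Γ, Γ⁆ := by
  induction v with
  | nil => exact hc
  | cons x v ih =>
    have : at_ (x :: v) c = at_ [x] (at_ v c) := by rw [← at_append]; rfl
    rw [this]
    exact h.at_one_mem x ih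

/-- The elements all of whose sections on level `n` lie in the commutator subgroup. -/
def K (Γ : Subgroup (Perm (List X))) : ℕ → Subgroup (Perm (List X))
  | 0 => ⁅Γ, Γ⁆
  | n + 1 => ((⨅ x : X, (K Γ n).comap (Pi.evalMonoidHom (fun _ : X => Perm (List X)) x)).map ψ) ⊓ Γ

theorem K_le [Finite X] (n : ℕ) :
    K Γ n ≤ Subgroup.closure {g | ∃ v c, v.length = n ∧ c ∈ ⁅Γ, Γ⁆ ∧ g = at_ v c} := by
  induction n with
  | zero =>
    intro g hg
    exact Subgroup.subset_closure ⟨[], g, rfl, hg, rfl⟩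
  | succ n ih =>
    rintro g ⟨⟨s, hs, rfl⟩, -⟩
    have hmem : s ∈ (Subgroup.closure {g | ∃ v c, v.length = n + 1 ∧ c ∈ ⁅Γ, Γ⁆ ∧
        g = at_ v c}).comap ψ := by
      refine Subgroup.pi_mem_of_mulSingle_mem _ (fun x => ?_)
      have hsx : s x ∈ Subgroup.closure {g | ∃ v c, v.length = n ∧ c ∈ ⁅Γ, Γ⁆ ∧ g = at_ v c} := by
        apply ih
        simp only [SetLike.mem_coe, Subgroup.mem_iInf] at hs
        exact hs x
      have hle : Subgroup.closure {g | ∃ v c, v.length = n ∧ c ∈ ⁅Γ, Γ⁆ ∧ g = at_ v c} ≤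
          (Subgroup.closure {g | ∃ v c, v.length = n + 1 ∧ c ∈ ⁅Γ, Γ⁆ ∧ g = at_ v c}).comap
            (atH [x]) := by
        rw [Subgroup.closure_le]
        rintro _ ⟨v, c, hv, hc, rfl⟩
        exact Subgroup.subset_closure ⟨x :: v, c, by simp [hv], hc, by
          show at_ [x] (at_ v c) = _
          rw [← at_append]; rfl⟩
      exact hle hsx
    exact hmem

/-- The root permutation as a homomorphism. -/
noncomputable def rootHom (h : SelfSim Γ) : Γ →* Perm X :=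
  MonoidHom.mk' (fun g => (h.exists g.2).choose) (by
    intro a b
    obtain ⟨s, hs, -⟩ := (h.exists a.2).choose_spec
    obtain ⟨t, ht, -⟩ := (h.exists b.2).choose_spec
    obtain ⟨r, hr, -⟩ := (h.exists (a * b).2).choose_spec
    have e : (a * b : Perm (List X)) = mk (h.exists (a * b).2).choose r := hr
    have e2 : (a * b : Perm (List X)) = (a : Perm (List X)) * b := rfl
    have e3 := mk_mul (h.exists a.2).choose (h.exists b.2).choose s t
    rw [← hs, ← ht] at e3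
    rw [e3] at e
    exact (mk_inj e).1.symm)

theorem rootHom_spec (h : SelfSim Γ) (g : Γ) : ∃ s, (g : Perm (List X)) = mk (rootHom h g) s := by
  obtain ⟨s, hs, -⟩ := (h.exists g.2).choose_spec
  exact ⟨s, hs⟩

theorem range_relIndex [Finite X] (h : SelfSim Γ) : (ψ (X := X)).range.relIndex Γ ≠ 0 := by
  have h1 : (rootHom h).ker.FiniteIndex := inferInstance
  have h2 : (rootHom h).ker ≤ (ψ (X := X)).range.subgroupOf Γ := by
    intro g hg
    obtain ⟨s, hs⟩ := rootHom_spec h g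
    rw [MonoidHom.mem_ker.1 hg] at hs
    exact ⟨s, hs.symm⟩
  exact (Subgroup.finiteIndex_of_le h2).index_ne_zero

theorem K_relIndex [Finite X] (h : SelfSim Γ) (hab : (⁅Γ, Γ⁆).relIndex Γ ≠ 0) (n : ℕ) :
    (K Γ n).relIndex Γ ≠ 0 := by
  induction n with
  | zero => exact hab
  | succ n ih =>
    have h1 : (⨅ x : X, (K Γ n).comap (Pi.evalMonoidHom (fun _ : X => Perm (List X)) x)).relIndex
        (Γ.comap ψ) ≠ 0 := by
      refine Subgroup.relIndex_iInf_ne_zero fun x => ?_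
      rw [Subgroup.relIndex_comap]
      refine fun h0 => ih ?_
      refine Subgroup.relIndex_eq_zero_of_le_right ?_ h0
      rintro _ ⟨s, hs, rfl⟩
      exact h.sec hs x
    have h2 := h1
    rw [← Subgroup.relIndex_map_map_of_injective _ _ ψ_injective, Subgroup.map_comap_eq] at h2
    have h3 : ((ψ (X := X)).range ⊓ Γ).relIndex Γ ≠ 0 := by
      rw [Subgroup.inf_relIndex_right]
      exact range_relIndex h
    have h4 := Subgroup.relIndex_ne_zero_trans h2 h3
    show (_ ⊓ Γ).relIndex Γ ≠ 0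
    rw [Subgroup.inf_relIndex_right]
    exact h4

/-- If a rigid product lies in a self-similar group then so does the section. -/
theorem mem_of_at_mul {H : Subgroup (Perm (List X))} (hH : SelfSim H) (x1 : X) (hne : x1 ≠ x0) :
    ∀ (n m : ℕ), n < m → ∀ h k : Perm (List X),
      at_ (List.replicate n x1 ++ [x0]) h * at_ (List.replicate m x1 ++ [x0]) k ∈ H → h ∈ H := by
  intro n
  induction n with
  | zero =>
    intro m hm h k hmem
    obtain ⟨m, rfl⟩ := Nat.exists_eq_succ_of_ne_zero hm.ne'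
    simp only [List.replicate_zero, List.nil_append, Nat.succ_eq_add_one, List.replicate_succ,
      List.cons_append, at_cons, at_nil] at hmem
    rw [← map_mul] at hmem
    have := hH.sec hmem x0
    rw [Pi.mul_apply, Pi.mulSingle_eq_same, Pi.mulSingle_eq_of_ne (Ne.symm hne), mul_one] at this
    exact this
  | succ n ih =>
    intro m hm h k hmem
    obtain ⟨m, rfl⟩ := Nat.exists_eq_succ_of_ne_zero (Nat.ne_of_gt (lt_of_le_of_lt (Nat.zero_le _) hm))
    simp only [Nat.succ_eq_add_one, List.replicate_succ, List.cons_append, at_cons] at hmem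
    rw [← map_mul] at hmem
    have h2 := hH.sec hmem x1
    rw [Pi.mul_apply, Pi.mulSingle_eq_same, Pi.mulSingle_eq_same] at h2
    exact ih m (by omega) h k h2

theorem relIndex_zero {H : Subgroup (Perm (List X))} (hH : SelfSim H) (hΓ : Reg Γ x0)
    (x1 : X) (hne : x1 ≠ x0) {c : Perm (List X)} (hc : c ∈ ⁅Γ, Γ⁆) (hcH : c ∉ H) :
    H.relIndex Γ = 0 := by
  by_contra hcon
  have hfi : (H.subgroupOf Γ).FiniteIndex := ⟨hcon⟩
  have hfin : Finite (Γ ⧸ H.subgroupOf Γ) := Subgroup.finite_quotient_of_finiteIndex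
  let f : ℕ → Γ := fun n => ⟨at_ (List.replicate n x1 ++ [x0]) c, comm_le Γ (hΓ.at_mem _ hc)⟩
  obtain ⟨n, m, hnm, heq⟩ := Finite.exists_ne_map_eq_of_infinite
    (fun n => (QuotientGroup.mk (f n) : Γ ⧸ H.subgroupOf Γ))
  rw [QuotientGroup.eq, Subgroup.mem_subgroupOf] at heq
  have h1 : (at_ (List.replicate n x1 ++ [x0]) c)⁻¹ * at_ (List.replicate m x1 ++ [x0]) c ∈ H := heq
  rcases lt_or_gt_of_ne hnm with h | h
  · rw [← at_inv] at h1
    have := mem_of_at_mul hH x1 hne n m h _ _ h1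
    exact hcH (by simpa using H.inv_mem this)
  · have h2 := H.inv_mem h1
    rw [mul_inv_rev, inv_inv, ← at_inv] at h2
    have := mem_of_at_mul hH x1 hne m n h _ _ h2
    exact hcH (by simpa using H.inv_mem this)

end Q21.SS
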