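import Mathlib
import Pool.Agent.Q21.SS.Branch

set_option autoImplicit false

namespace Q21.SS.Ex

open Equiv
open scoped commutatorElement

abbrev X : Type := ZMod 5

/-- Rooted rotations. -/
def A (s : X) : Perm (List X) := SS.mk (Equiv.addRight s) 1

theorem A_add (s t : X) : A (s + t) = A s * A t := by
  rw [A, A, A, mk_mul]
  congr 1
  · ext1 x
    simp only [Equiv.coe_addRight, Perm.mul_apply]
    ring

theorem A_zero : A 0 = 1 := by
  rw [A]
  have : Equiv.addRight (0 : X) = 1 := by ext1 x; simp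
  rw [this, mk_one]

theorem A_neg (s : X) : A (-s) = (A s)⁻¹ := by
  rw [eq_inv_iff_mul_eq_one, ← A_add, neg_add_cancel, A_zero]

theorem A_cons (s x : X) (w : List X) : A s (x :: w) = (x + s) :: w := rfl

theorem A_comm (s t : X) : A s * A t = A t * A s := by
  rw [← A_add, ← A_add, add_comm]

/-- Directed automorphisms. -/
def dirf (f : X → List X → List X) : List X → List X
  | [] => []
  | x :: w => if x = 0 then x :: dirf f w else x :: f x w

def dir (f : X → Perm (List X)) : Perm (List X) where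
  toFun := dirf (fun x => f x)
  invFun := dirf (fun x => (f x).symm)
  left_inv w := by
    induction w with
    | nil => rfl
    | cons x w ih =>
      by_cases hx : x = 0
      · simp [dirf, hx, ih]
      · simp [dirf, hx]
  right_inv w := by
    induction w with
    | nil => rfl
    | cons x w ih =>
      by_cases hx : x = 0
      · simp [dirf, hx, ih]
      · simp [dirf, hx]

theorem dir_cons (f : X → Perm (List X)) (x : X) (w : List X) :
    dir f (x :: w) = if x = 0 then x :: dir f w else x :: f x w := rfl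

theorem dir_eq (f : X → Perm (List X)) : dir f = ψ (fun x => if x = 0 then dir f else f x) := by
  ext1 w
  cases w with
  | nil => rfl
  | cons x w =>
    rw [dir_cons, ψ_apply, mk_cons]
    by_cases hx : x = 0
    · simp [hx]
    · simp [hx]

theorem dir_mul (f g : X → Perm (List X)) : dir f * dir g = dir (fun x => f x * g x) := by
  ext1 w
  rw [Perm.mul_apply]
  induction w with
  | nil => rfl
  | cons x w ih =>
    by_cases hx : x = 0
    · simp [dir_cons, hx, ih]
    · simp [dir_cons, hx]

theorem dir_one : dir (fun _ => 1) = 1 := by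
  ext1 w
  induction w with
  | nil => rfl
  | cons x w ih =>
    by_cases hx : x = 0
    · rw [dir_cons, if_pos hx, ih]; rfl
    · rw [dir_cons, if_neg hx]; rfl

/-- The directed automorphisms of the example. -/
def b (p : X × X) : Perm (List X) :=
  dir (fun x => if x = 1 then A p.1 else if x = 2 then A p.2 else 1)

theorem b_add (p q : X × X) : b (p + q) = b p * b q := by
  rw [b, b, b, dir_mul]
  congr 1
  funext x
  split_ifs
  · exact A_add _ _
  · exact A_add _ _
  · simp

theorem b_zero : b 0 = 1 := by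
  rw [b]
  have : (fun x : X => if x = 1 then A (0 : X × X).1 else if x = 2 then A (0 : X × X).2 else 1) =
      fun _ => 1 := by
    funext x
    simp [A_zero]
  rw [this, dir_one]

theorem b_neg (p : X × X) : b (-p) = (b p)⁻¹ := by
  rw [eq_inv_iff_mul_eq_one, ← b_add, neg_add_cancel, b_zero]

theorem b_comm (p q : X × X) : b p * b q = b q * b p := by
  rw [← b_add, ← b_add, add_comm]

/-- The sections of the rotated directed automorphisms. -/
def B (k : X) (p : X × X) : X → Perm (List X) := fun x =>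
  if x = k then b p else if x = k + 1 then A p.1 else if x = k + 2 then A p.2 else 1

theorem B_add (k : X) (p q : X × X) : B k (p + q) = B k p * B k q := by
  funext x
  rw [Pi.mul_apply]
  unfold B
  split_ifs
  · exact b_add _ _
  · exact A_add _ _
  · exact A_add _ _
  · simp

theorem B_zero (k : X) : B k 0 = 1 := by
  funext x
  unfold B
  simp [A_zero, b_zero]

/-- Rotated directed automorphisms. -/
def bk (k : X) (p : X × X) : Perm (List X) := ψ (B k p)

theorem bk_add (k : X) (p q : X × X) : bk k (p + q) = bk k p * bk k q := by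
  rw [bk, B_add, map_mul]; rfl

theorem bk_zero (k : X) : bk k 0 = 1 := by
  rw [bk, B_zero, map_one]

theorem bk_neg (k : X) (p : X × X) : bk k (-p) = (bk k p)⁻¹ := by
  rw [eq_inv_iff_mul_eq_one, ← bk_add, neg_add_cancel, bk_zero]

theorem b_eq (p : X × X) : b p = bk 0 p := by
  rw [bk, b, dir_eq]
  congr 1

theorem A_conj (j : X) (s : X → Perm (List X)) : A j * ψ s * A (-j) = ψ (fun x => s (x - j)) := by
  rw [A_neg, A, conj_ψ]
  congr 1
  funext x
  simp [sub_eq_add_neg]

theorem A_bk (j k : X) (p : X × X) : A j * bk k p * A (-j) = bk (k + j) p := by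
  rw [bk, A_conj, bk]
  congr 1
  funext x
  unfold B
  have e1 : (x - j = k) ↔ (x = k + j) := sub_eq_iff_eq_add
  have e2 : (x - j = k + 1) ↔ (x = k + j + 1) := by rw [sub_eq_iff_eq_add]; ring_nf
  have e3 : (x - j = k + 2) ↔ (x = k + j + 2) := by rw [sub_eq_iff_eq_add]; ring_nf
  simp only [e1, e2, e3]

theorem bk_A (j k : X) (p : X × X) : bk k p * A j = A j * bk (k - j) p := by
  have h := A_bk j (k - j) p
  rw [sub_add_cancel] at h
  rw [← h, mul_assoc, ← A_add, neg_add_cancel, A_zero, mul_one]

/-- The value of a word. -/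
def val (l : List (X × X × X)) : Perm (List X) := (l.map (fun p => bk p.1 p.2)).prod

theorem val_nil : val [] = 1 := rfl
theorem val_cons (p : X × X × X) (l : List (X × X × X)) : val (p :: l) = bk p.1 p.2 * val l := by
  rw [val, List.map_cons, List.prod_cons]; rfl
theorem val_append (l l' : List (X × X × X)) : val (l ++ l') = val l * val l' := by
  rw [val, List.map_append, List.prod_append]; rfl

/-- Rotation of a word. -/
def shift (j : X) (l : List (X × X × X)) : List (X × X × X) := l.map (fun p => (p.1 - j, p.2))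

theorem val_A (j : X) (l : List (X × X × X)) : val l * A j = A j * val (shift j l) := by
  induction l with
  | nil => simp [val_nil, shift]
  | cons p l ih =>
    have : shift j (p :: l) = (p.1 - j, p.2) :: shift j l := rfl
    rw [this, val_cons, val_cons, mul_assoc, ih, ← mul_assoc, bk_A, mul_assoc]

/-- The sum of the exponents of a word. -/
def sm (l : List (X × X × X)) : X × X := (l.map (fun p => p.2)).sum

theorem sm_nil : sm [] = 0 := rfl
theorem sm_cons (p : X × X × X) (l : List (X × X × X)) : sm (p :: l) = p.2 + sm l := by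
  rw [sm, List.map_cons, List.sum_cons]; rfl
theorem sm_append (l l' : List (X × X × X)) : sm (l ++ l') = sm l + sm l' := by
  rw [sm, List.map_append, List.sum_append]; rfl
theorem sm_shift (j : X) (l : List (X × X × X)) : sm (shift j l) = sm l := by
  rw [sm, shift, List.map_map]; rfl

/-- `g` is represented by a word of length `n` with exponent vector `σ` and exponents in `V`. -/
def TL (V : AddSubgroup (X × X)) (g : Perm (List X)) (n : ℕ) (σ : X × X) : Prop :=
  ∃ (j : X) (l : List (X × X × X)), (∀ p ∈ l, p.2 ∈ V) ∧ l.length = n ∧ sm l = σ ∧ g = A j * val l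

variable {V : AddSubgroup (X × X)}

theorem TL.mul {g h : Perm (List X)} {n m : ℕ} {σ τ : X × X} (hg : TL V g n σ) (hh : TL V h m τ) :
    TL V (g * h) (n + m) (σ + τ) := by
  obtain ⟨j, l, hl, rfl, rfl, rfl⟩ := hg
  obtain ⟨i, k, hk, rfl, rfl, rfl⟩ := hh
  refine ⟨j + i, shift i l ++ k, ?_, ?_, ?_, ?_⟩
  · intro p hp
    rw [List.mem_append] at hp
    rcases hp with hp | hp
    · rw [shift, List.mem_map] at hp
      obtain ⟨q, hq, rfl⟩ := hp
      exact hl q hq
    · exact hk p hp
  · simp [shift]
  · rw [sm_append, sm_shift]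
  · rw [val_append, A_add]
    calc A j * val l * (A i * val k) = A j * (val l * A i) * val k := by group
      _ = _ := by rw [val_A]; group

theorem val_inv (l : List (X × X × X)) :
    (val l)⁻¹ = val (l.reverse.map (fun p => (p.1, -p.2))) := by
  induction l with
  | nil => simp [val_nil]
  | cons p l ih =>
    rw [val_cons, mul_inv_rev, ih, List.reverse_cons, List.map_append, val_append]
    congr 1
    rw [List.map_singleton, val_cons, val_nil, mul_one, bk_neg]

theorem sm_neg (l : List (X × X × X)) : sm (l.reverse.map (fun p => (p.1, -p.2))) = - sm l := by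
  induction l with
  | nil => simp [sm_nil]
  | cons p l ih =>
    rw [List.reverse_cons, List.map_append, sm_append, ih, List.map_singleton, sm_cons, sm_nil,
      sm_cons, add_zero, neg_add_rev]

theorem TL.inv {g : Perm (List X)} {n : ℕ} {σ : X × X} (hg : TL V g n σ) : TL V g⁻¹ n (-σ) := by
  obtain ⟨j, l, hl, rfl, rfl, rfl⟩ := hg
  refine ⟨-j, shift (-j) (l.reverse.map (fun p => (p.1, -p.2))), ?_, ?_, ?_, ?_⟩
  · intro p hp
    rw [shift, List.mem_map] at hp
    obtain ⟨q, hq, rfl⟩ := hp
    rw [List.mem_map] at hq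
    obtain ⟨r, hr, rfl⟩ := hq
    exact V.neg_mem (hl r (List.mem_reverse.1 hr))
  · simp [shift]
  · rw [sm_shift, sm_neg]
  · rw [mul_inv_rev, val_inv, ← A_neg, val_A]

theorem TL.A (s : X) : TL V (Ex.A s) 0 0 :=
  ⟨s, [], by simp, rfl, rfl, by rw [val_nil, mul_one]⟩

theorem TL.one : TL V 1 0 0 := by
  have := TL.A (V := V) 0
  rwa [A_zero] at this

theorem TL.b {p : X × X} (hp : p ∈ V) : TL V (Ex.b p) 1 p :=
  ⟨0, [(0, p)], by simpa using hp, rfl, by rw [sm_cons, sm_nil, add_zero], by
    rw [val_cons, val_nil, A_zero, one_mul, mul_one, b_eq]⟩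

/-- The sections of the value of a word. -/
def secs (l : List (X × X × X)) (x : X) : Perm (List X) := (l.map (fun p => B p.1 p.2 x)).prod

theorem val_eq (l : List (X × X × X)) : val l = ψ (secs l) := by
  induction l with
  | nil =>
    rw [val_nil]
    have : secs [] = 1 := rfl
    rw [this, map_one]
  | cons p l ih =>
    rw [val_cons, ih, bk, ← map_mul]
    rfl

/-- Number of letters at `x`. -/
def cx (l : List (X × X × X)) (x : X) : ℕ := (l.map (fun p => if p.1 = x then 1 else 0)).sum
/-- Sum of the exponents at `x`. -/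
def sx (l : List (X × X × X)) (x : X) : X × X := (l.map (fun p => if p.1 = x then p.2 else 0)).sum

theorem TL_secs (l : List (X × X × X)) (hl : ∀ p ∈ l, p.2 ∈ V) (x : X) :
    TL V (secs l x) (cx l x) (sx l x) := by
  induction l with
  | nil => exact TL.one
  | cons p l ih =>
    have h1 : TL V (B p.1 p.2 x) (if p.1 = x then 1 else 0) (if p.1 = x then p.2 else 0) := by
      unfold B
      by_cases hx : x = p.1
      · rw [if_pos hx, if_pos hx.symm, if_pos hx.symm]
        exact TL.b (hl p (by simp))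
      · rw [if_neg hx, if_neg (Ne.symm hx), if_neg (Ne.symm hx)]
        split_ifs
        · exact TL.A _
        · exact TL.A _
        · exact TL.one
    have h2 := h1.mul (ih (fun p hp => hl p (by simp [hp])))
    have e1 : secs (p :: l) x = B p.1 p.2 x * secs l x := by
      rw [secs, List.map_cons, List.prod_cons]; rfl
    have e2 : cx (p :: l) x = (if p.1 = x then 1 else 0) + cx l x := by
      rw [cx, List.map_cons, List.sum_cons]; rfl
    have e3 : sx (p :: l) x = (if p.1 = x then p.2 else 0) + sx l x := by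
      rw [sx, List.map_cons, List.sum_cons]; rfl
    rw [e1, e2, e3]
    exact h2

theorem sum_sx (l : List (X × X × X)) : ∑ x, sx l x = sm l := by
  induction l with
  | nil => simp [sx, sm_nil]
  | cons p l ih =>
    have e3 : ∀ x, sx (p :: l) x = (if p.1 = x then p.2 else 0) + sx l x := fun x => by
      rw [sx, List.map_cons, List.sum_cons]; rfl
    simp only [e3, Finset.sum_add_distrib, ih, sm_cons, Finset.sum_ite_eq, Finset.mem_univ, if_true]

theorem cx_le (l : List (X × X × X)) (x : X) : cx l x ≤ l.length := by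
  induction l with
  | nil => simp [cx]
  | cons p l ih =>
    have e2 : cx (p :: l) x = (if p.1 = x then 1 else 0) + cx l x := by
      rw [cx, List.map_cons, List.sum_cons]; rfl
    rw [e2, List.length_cons]
    split_ifs <;> omega

theorem all_of_cx (l : List (X × X × X)) (x : X) (h : cx l x = l.length) :
    val l = bk x (sm l) := by
  induction l with
  | nil => rw [val_nil, sm_nil, bk_zero]
  | cons p l ih =>
    have e2 : cx (p :: l) x = (if p.1 = x then 1 else 0) + cx l x := by
      rw [cx, List.map_cons, List.sum_cons]; rfl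
    rw [e2, List.length_cons] at h
    have h3 := cx_le l x
    have hp : p.1 = x := by
      by_contra hne
      rw [if_neg hne] at h
      omega
    rw [if_pos hp] at h
    rw [val_cons, ih (by omega), hp, sm_cons, bk_add]

/-- The groups of the example. -/
def Gr (V : AddSubgroup (X × X)) : Subgroup (Perm (List X)) :=
  Subgroup.closure (Set.range A ∪ b '' (V : Set (X × X)))

theorem A_mem (s : X) : A s ∈ Gr V := Subgroup.subset_closure (Or.inl ⟨s, rfl⟩)
theorem b_mem {p : X × X} (hp : p ∈ V) : b p ∈ Gr V := Subgroup.subset_closure (Or.inr ⟨p, hp, rfl⟩)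

theorem bk_mem (k : X) {p : X × X} (hp : p ∈ V) : bk k p ∈ Gr V := by
  have h := A_bk k 0 p
  rw [zero_add, ← b_eq] at h
  rw [← h]
  exact Subgroup.mul_mem _ (Subgroup.mul_mem _ (A_mem _) (b_mem hp)) (A_mem _)

theorem TL_of_mem {g : Perm (List X)} (hg : g ∈ Gr V) : ∃ n σ, TL V g n σ := by
  induction hg using Subgroup.closure_induction with
  | mem x hx =>
    rcases hx with ⟨s, rfl⟩ | ⟨p, hp, rfl⟩
    · exact ⟨0, 0, TL.A s⟩
    · exact ⟨1, p, TL.b hp⟩
  | one => exact ⟨0, 0, TL.one⟩
  | mul x y _ _ ihx ihy =>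
    obtain ⟨n, σ, h1⟩ := ihx
    obtain ⟨m, τ, h2⟩ := ihy
    exact ⟨_, _, h1.mul h2⟩
  | inv x _ ihx =>
    obtain ⟨n, σ, h1⟩ := ihx
    exact ⟨_, _, h1.inv⟩

/-- Elements of the commutator subgroup have a word with exponent vector zero. -/
theorem TL_of_comm {g : Perm (List X)} (hg : g ∈ ⁅Gr V, Gr V⁆) : ∃ n, TL V g n 0 := by
  let C : Subgroup (Perm (List X)) :=
    { carrier := {g | ∃ n, TL V g n 0}
      mul_mem' := by
        rintro x y ⟨n, hx⟩ ⟨m, hy⟩
        exact ⟨n + m, by have := hx.mul hy; rwa [add_zero] at this⟩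
      one_mem' := ⟨0, TL.one⟩
      inv_mem' := by
        rintro x ⟨n, hx⟩
        exact ⟨n, by have := hx.inv; rwa [neg_zero] at this⟩ }
  have h : ⁅Gr V, Gr V⁆ ≤ C := by
    rw [Subgroup.commutator_le]
    intro x hx y hy
    obtain ⟨n, σ, h1⟩ := TL_of_mem hx
    obtain ⟨m, τ, h2⟩ := TL_of_mem hy
    have h3 := ((h1.mul h2).mul h1.inv).mul h2.inv
    rw [← commutatorElement_def] at h3
    have e : σ + τ + -σ + -τ = 0 := by rw [add_neg_cancel_comm, add_neg_cancel]
    rw [e] at h3
    exact ⟨_, h3⟩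
  exact h hg

theorem selfSim : SelfSim (Gr V) := by
  unfold SelfSim
  rw [Gr, Subgroup.closure_le]
  rintro _ (⟨s, rfl⟩ | ⟨p, hp, rfl⟩)
  · exact ⟨_, _, rfl, fun x => Subgroup.one_mem _⟩
  · rw [b_eq]
    refine ⟨1, B 0 p, rfl, fun x => ?_⟩
    unfold B
    split_ifs
    · exact b_mem hp
    · exact A_mem _
    · exact A_mem _
    · exact Subgroup.one_mem _

theorem le_pr (hV : ∀ s : X, (s, 0) ∈ V) : Gr V ≤ pr 0 (Gr V) := by
  conv_lhs => rw [Gr]
  rw [Subgroup.closure_le]
  rintro _ (⟨s, rfl⟩ | ⟨p, hp, rfl⟩)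
  · rw [SetLike.mem_coe, mem_pr]
    refine ⟨B (-1) (s, 0), bk_mem (-1) (hV s), ?_⟩
    unfold B
    rw [if_neg (by decide), if_pos (by decide)]
  · rw [SetLike.mem_coe, mem_pr]
    refine ⟨B 0 p, ?_, ?_⟩
    · have := b_mem hp
      rwa [b_eq] at this
    · unfold B
      rw [if_pos rfl]

theorem fr (hV : ∀ s : X, (s, 0) ∈ V) : ∀ g ∈ Gr V, ∃ s, ψ s ∈ Gr V ∧ s 0 = g :=
  fun g hg => mem_pr.1 (le_pr hV hg)

/-- A criterion for the commutator subgroup to lie in a normalised subgroup. -/
theorem comm_le_of_gen {G : Type} [Group G] (S : Set G) (N : Subgroup G)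
    (hN : ∀ g ∈ Subgroup.closure S, ∀ n ∈ N, g * n * g⁻¹ ∈ N)
    (h : ∀ x ∈ S, ∀ y ∈ S, ⁅x, y⁆ ∈ N) : ⁅Subgroup.closure S, Subgroup.closure S⁆ ≤ N := by
  -- first step: one generator, one arbitrary element
  have h1 : ∀ x ∈ S, ∀ g ∈ Subgroup.closure S, ⁅x, g⁆ ∈ N := by
    intro x hx g hg
    induction hg using Subgroup.closure_induction with
    | mem y hy => exact h x hx y hy
    | one => rw [commutatorElement_one_right]; exact N.one_mem
    | mul y z hy hz ihy ihz =>
      have e : ⁅x, y * z⁆ = ⁅x, y⁆ * (y * ⁅x, z⁆ * y⁻¹) := by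
        simp only [commutatorElement_def]; group
      rw [e]
      exact N.mul_mem ihy (hN y hy _ ihz)
    | inv y hy ihy =>
      have e : ⁅x, y⁻¹⁆ = y⁻¹ * ⁅x, y⁆⁻¹ * (y⁻¹)⁻¹ := by
        simp only [commutatorElement_def]; group
      rw [e]
      exact hN _ (Subgroup.inv_mem _ hy) _ (N.inv_mem ihy)
  rw [Subgroup.commutator_le]
  intro g hg k hk
  induction hg using Subgroup.closure_induction with
  | mem x hx => exact h1 x hx k hk
  | one => rw [commutatorElement_one_left]; exact N.one_mem
  | mul y z hy hz ihy ihz =>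
    have e : ⁅y * z, k⁆ = (y * ⁅z, k⁆ * y⁻¹) * ⁅y, k⁆ := by
      simp only [commutatorElement_def]; group
    rw [e]
    exact N.mul_mem (hN y hy _ ihz) ihy
  | inv y hy ihy =>
    have e : ⁅y⁻¹, k⁆ = y⁻¹ * ⁅y, k⁆⁻¹ * (y⁻¹)⁻¹ := by
      simp only [commutatorElement_def]; group
    rw [e]
    exact hN _ (Subgroup.inv_mem _ hy) _ (N.inv_mem ihy)

theorem comm_of_commute {G : Type} [Group G] {x y : G} (h : x * y = y * x) : ⁅x, y⁆ = 1 :=
  commutatorElement_eq_one_iff_mul_comm.2 h

/-- The basic branching identity. -/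
theorem at_comm (p : X × X) (j : X) :
    at_ [0] ⁅b p, A j⁆ = ⁅b p, bk (-1) (j, 0)⁆ := by
  rw [b_eq p, ← b_eq p, at_cons, at_nil]
  have e1 : ⁅b p, bk (-1) (j, 0)⁆ = ψ ⁅B 0 p, B (-1) (j, 0)⁆ := by
    rw [map_commutatorElement, ← bk, ← bk, ← b_eq]
  rw [e1]
  congr 1
  funext x
  rw [show (⁅B 0 p, B (-1) (j, 0)⁆ : X → Perm (List X)) x = ⁅B 0 p x, B (-1) (j, 0) x⁆ from rfl]
  have key : ∀ x : X, x = 0 ∨ x = 1 ∨ x = 2 ∨ x = 3 ∨ x = 4 := by decide
  rcases key x with rfl | rfl | rfl | rfl | rfl
  · rw [Pi.mulSingle_eq_same]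
    have e2 : B 0 p 0 = b p := by unfold B; rw [if_pos rfl]
    have e3 : B (-1) (j, 0) 0 = A j := by
      unfold B; rw [if_neg (by decide), if_pos (by decide)]
    rw [e2, e3]
  · rw [Pi.mulSingle_eq_of_ne (by decide)]
    have e3 : B (-1) (j, 0) 1 = 1 := by
      unfold B
      rw [if_neg (by decide), if_neg (by decide), if_pos (by decide)]
      exact A_zero
    rw [e3, commutatorElement_one_right]
  · rw [Pi.mulSingle_eq_of_ne (by decide)]
    have e3 : B (-1) (j, 0) 2 = 1 := by
      unfold B
      rw [if_neg (by decide), if_neg (by decide), if_neg (by decide)]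
    rw [e3, commutatorElement_one_right]
  · rw [Pi.mulSingle_eq_of_ne (by decide)]
    have e3 : B (-1) (j, 0) 3 = 1 := by
      unfold B
      rw [if_neg (by decide), if_neg (by decide), if_neg (by decide)]
    rw [e3, commutatorElement_one_right]
  · rw [Pi.mulSingle_eq_of_ne (by decide)]
    have e2 : B 0 p 4 = 1 := by
      unfold B
      rw [if_neg (by decide), if_neg (by decide), if_neg (by decide)]
    rw [e2, commutatorElement_one_left]

theorem gen_comm (N : Subgroup (Perm (List X)))
    (h : ∀ p ∈ V, ∀ j, ⁅b p, A j⁆ ∈ N) :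
    ∀ x ∈ (Set.range A ∪ b '' (V : Set (X × X))), ∀ y ∈ (Set.range A ∪ b '' (V : Set (X × X))),
      ⁅x, y⁆ ∈ N := by
  rintro _ (⟨s, rfl⟩ | ⟨p, hp, rfl⟩) _ (⟨t, rfl⟩ | ⟨q, hq, rfl⟩)
  · rw [comm_of_commute (A_comm s t)]; exact N.one_mem
  · rw [← commutatorElement_inv]; exact N.inv_mem (h q hq s)
  · exact h p hp t
  · rw [comm_of_commute (b_comm p q)]; exact N.one_mem

theorem br (hV : ∀ s : X, (s, 0) ∈ V) : ∀ c ∈ ⁅Gr V, Gr V⁆, at_ [0] c ∈ ⁅Gr V, Gr V⁆ := by
  have h : ⁅Gr V, Gr V⁆ ≤ (⁅Gr V, Gr V⁆).comap (atH [0]) := by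
    refine comm_le_of_gen _ _ ?_ (gen_comm _ ?_)
    · intro g hg n hn
      obtain ⟨s, hs, hs0⟩ := fr hV g hg
      show at_ [0] (g * n * g⁻¹) ∈ ⁅Gr V, Gr V⁆
      have e : at_ [0] (g * n * g⁻¹) = ψ s * at_ [0] n * (ψ s)⁻¹ := by
        rw [at_cons, at_nil, at_cons, at_nil, ← map_inv, ← map_mul, ← map_mul]
        congr 1
        funext y
        by_cases hy : y = 0
        · subst hy
          simp [hs0]
        · simp [Pi.mulSingle_eq_of_ne hy]
      rw [e]
      exact conj_mem_comm hs hn
    · intro p hp j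
      show at_ [0] ⁅b p, A j⁆ ∈ ⁅Gr V, Gr V⁆
      rw [at_comm]
      exact Subgroup.commutator_mem_commutator (b_mem hp) (bk_mem _ (hV j))
  exact fun c hc => h hc

theorem ab : (⁅Gr V, Gr V⁆).relIndex (Gr V) ≠ 0 := by
  have hcomm : commutator (Gr V) = (⁅Gr V, Gr V⁆).subgroupOf (Gr V) := by
    rw [← Subgroup.map_subtype_commutator, Subgroup.subgroupOf,
      Subgroup.comap_map_eq_self_of_injective (Gr V).subtype_injective]
  have hfin : Finite (Abelianization (Gr V)) := by
    let f : Multiplicative (X × V) →* Abelianization (Gr V) :=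
      MonoidHom.mk' (fun z => Abelianization.of (⟨A z.toAdd.1, A_mem _⟩ : Gr V) *
        Abelianization.of (⟨b z.toAdd.2.1, b_mem z.toAdd.2.2⟩ : Gr V)) (by
        intro z w
        have e1 : (⟨A (z * w).toAdd.1, A_mem _⟩ : Gr V) =
          ⟨A z.toAdd.1, A_mem _⟩ * ⟨A w.toAdd.1, A_mem _⟩ := Subtype.ext (A_add _ _)
        have e2 : (⟨b (z * w).toAdd.2.1, b_mem (z * w).toAdd.2.2⟩ : Gr V) =
          ⟨b z.toAdd.2.1, b_mem z.toAdd.2.2⟩ * ⟨b w.toAdd.2.1, b_mem w.toAdd.2.2⟩ :=
          Subtype.ext (b_add _ _)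
        rw [e1, e2, map_mul, map_mul]
        exact mul_mul_mul_comm _ _ _ _)
    have hsurj : Function.Surjective f := by
      rw [← MonoidHom.range_eq_top, eq_top_iff]
      intro z _
      obtain ⟨g, rfl⟩ := QuotientGroup.mk_surjective z
      obtain ⟨g, hg⟩ := g
      show Abelianization.of (⟨g, hg⟩ : Gr V) ∈ f.range
      have key : ∀ (g : Perm (List X)) (hg : g ∈ Gr V),
          Abelianization.of (⟨g, hg⟩ : Gr V) ∈ f.range := by
        intro g hg
        induction hg using Subgroup.closure_induction with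
        | mem x hx =>
          rcases hx with ⟨s, rfl⟩ | ⟨p, hp, rfl⟩
          · refine ⟨Multiplicative.ofAdd (s, 0), ?_⟩
            show Abelianization.of _ * Abelianization.of _ = _
            have : (⟨b ((0 : V) : X × X), b_mem (0 : V).2⟩ : Gr V) = 1 := Subtype.ext b_zero
            rw [show (Multiplicative.toAdd (Multiplicative.ofAdd (s, (0 : V)))).2 = 0 from rfl, this,
              map_one, mul_one]
            rfl
          · refine ⟨Multiplicative.ofAdd (0, ⟨p, hp⟩), ?_⟩
            show Abelianization.of _ * Abelianization.of _ = _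
            have : (⟨A 0, A_mem 0⟩ : Gr V) = 1 := Subtype.ext A_zero
            rw [show (Multiplicative.toAdd (Multiplicative.ofAdd ((0 : X), (⟨p, hp⟩ : V)))).1 = 0
              from rfl, this, map_one, one_mul]
            rfl
        | one =>
          have : (⟨1, Subgroup.one_mem _⟩ : Gr V) = 1 := rfl
          rw [this, map_one]
          exact Subgroup.one_mem _
        | mul x y hx hy ihx ihy =>
          have : (⟨x * y, Subgroup.mul_mem _ hx hy⟩ : Gr V) = ⟨x, hx⟩ * ⟨y, hy⟩ := rfl
          rw [this, map_mul]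
          exact Subgroup.mul_mem _ ihx ihy
        | inv x hx ihx =>
          have : (⟨x⁻¹, Subgroup.inv_mem _ hx⟩ : Gr V) = ⟨x, hx⟩⁻¹ := rfl
          rw [this, map_inv]
          exact Subgroup.inv_mem _ ihx
      exact key g hg
    exact Finite.of_surjective f hsurj
  have hfin' : Finite (Gr V ⧸ commutator (Gr V)) := hfin
  have : (commutator (Gr V)).FiniteIndex := Subgroup.finiteIndex_of_finite_quotient
  rw [hcomm] at this
  exact this.index_ne_zero

theorem reg (hV : ∀ s : X, (s, 0) ∈ V) : Reg (Gr V) 0 where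
  ss := selfSim
  tr x := ⟨A x, A_mem x, by rw [A_cons, zero_add]⟩
  fr := fr hV
  ab := ab
  br := br hV

end Q21.SS.Ex
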