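import Mathlib
import Pool.Agent.Q21.SS.Ex

set_option autoImplicit false

namespace Q21.SS.Ex

open Equiv
open scoped commutatorElement

/-- The exponents of the smaller group. -/
def VH : AddSubgroup (X × X) where
  carrier := {p | p.2 = 0}
  add_mem' := by
    rintro p q hp hq
    show p.2 + q.2 = 0
    rw [show p.2 = 0 from hp, show q.2 = 0 from hq, add_zero]
  zero_mem' := rfl
  neg_mem' := by
    rintro p hp
    show -p.2 = 0
    rw [show p.2 = 0 from hp, neg_zero]

theorem mem_VH (s : X) : ((s, 0) : X × X) ∈ VH := rfl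

abbrev GH : Subgroup (Perm (List X)) := Gr VH
abbrev GG : Subgroup (Perm (List X)) := Gr ⊤

theorem GH_le : GH ≤ GG := Subgroup.closure_mono (Set.union_subset_union_right _
  (Set.image_mono fun _ _ => trivial))

theorem regH : Reg GH 0 := reg mem_VH
theorem regG : Reg GG 0 := reg (fun _ => trivial)

theorem b_pow (t : X) (n : ℕ) : b (0, (n : X) * t) = b (0, t) ^ n := by
  induction n with
  | zero => simp only [Nat.cast_zero, zero_mul, pow_zero]; exact b_zero
  | succ n ih =>
    rw [pow_succ, ← ih, ← b_add]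
    congr 1
    ext
    · simp
    · simp only [Nat.cast_succ, Prod.mk_add_mk]; ring

instance : Fact (Nat.Prime 5) := ⟨by norm_num⟩

theorem descent (n : ℕ) : ∀ (M : Subgroup (Perm (List X))) (_ : GH ≤ M) (g : Perm (List X))
    (_ : g ∈ M) (σ : X × X) (_ : σ.2 ≠ 0) (_ : TL ⊤ g n σ), ∃ k, b (0, 1) ∈ (pr 0)^[k] M := by
  induction n using Nat.strong_induction_on with
  | _ n ih =>
    rintro M hM g hg σ hσ ⟨j, l, -, hlen, hsm, rfl⟩
    have hval : val l ∈ M := by
      have h1 : A (-j) * (A j * val l) ∈ M := M.mul_mem (hM (A_mem _)) hg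
      rwa [← mul_assoc, ← A_add, neg_add_cancel, A_zero, one_mul] at h1
    -- find a coordinate
    have hx : ∃ x, (sx l x).2 ≠ 0 := by
      by_contra hcon
      push Not at hcon
      apply hσ
      rw [← hsm, ← sum_sx, Prod.snd_sum]
      exact Finset.sum_eq_zero fun x _ => hcon x
    obtain ⟨x, hx⟩ := hx
    -- the conjugate of the value with the coordinate `x` moved to `0`
    have hconj : A (-x) * val l * A (- -x) = ψ (fun y => secs l (y - -x)) := by
      rw [val_eq, A_conj]
    have hmem : ψ (fun y => secs l (y - -x)) ∈ M := by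
      rw [← hconj]
      exact M.mul_mem (M.mul_mem (hM (A_mem _)) hval) (hM (A_mem _))
    by_cases hc : cx l x < n
    · have hpr : secs l x ∈ pr 0 M := mem_pr.2 ⟨_, hmem, by simp⟩
      obtain ⟨k, hk⟩ := ih (cx l x) hc (pr 0 M) ((le_pr mem_VH).trans (pr_mono hM)) (secs l x)
        hpr (sx l x) hx (TL_secs l (fun _ _ => AddSubgroup.mem_top _) x)
      exact ⟨k + 1, by rw [Function.iterate_succ_apply]; exact hk⟩
    · have h2 := all_of_cx l x (by have := cx_le l x; omega)
      rw [h2, A_bk] at hconj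
      rw [← hconj, add_neg_cancel, ← b_eq, hsm] at hmem
      have h3 : b (0, σ.2) ∈ M := by
        have h4 : b (-σ.1, 0) ∈ M := hM (b_mem (mem_VH _))
        have h5 := M.mul_mem h4 hmem
        rw [← b_add] at h5
        have e : ((-σ.1, 0) : X × X) + σ = (0, σ.2) := by ext <;> simp
        rwa [e] at h5
      refine ⟨0, ?_⟩
      show b (0, 1) ∈ M
      have h6 := b_pow σ.2 (σ.2⁻¹).val
      have e2 : (((σ.2⁻¹).val : ℕ) : X) * σ.2 = 1 := by
        rw [ZMod.natCast_val, ZMod.cast_id', id_eq]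
        exact inv_mul_cancel₀ hσ
      rw [e2] at h6
      rw [h6]
      exact M.pow_mem h3 _

/-- If `M` contains `GH` and an iterated projection of `M` contains the extra generator, then `M`
contains all the rigid copies of the commutator subgroup on some level. -/
theorem rigid_mem (M : Subgroup (Perm (List X))) (hM : GH ≤ M) (k : ℕ)
    (hk : b (0, 1) ∈ (pr 0)^[k] M) :
    ∀ (v : List X) (c : Perm (List X)), v.length = k + 1 → c ∈ ⁅GG, GG⁆ → at_ v c ∈ M := by
  -- the iterated projection contains the big group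
  have hHk : ∀ n, GH ≤ (pr 0)^[n] M := by
    intro n
    induction n with
    | zero => exact hM
    | succ n ih =>
      rw [Function.iterate_succ_apply']
      exact (le_pr mem_VH).trans (pr_mono ih)
  have hG : GG ≤ (pr 0)^[k] M := by
    rw [show GG = Subgroup.closure (Set.range A ∪ b '' ((⊤ : AddSubgroup (X × X)) : Set (X × X)))
      from rfl, Subgroup.closure_le]
    rintro _ (⟨s, rfl⟩ | ⟨p, -, rfl⟩)
    · exact hHk k (A_mem s)
    · have h1 : b (p.1, 0) ∈ (pr 0)^[k] M := hHk k (b_mem (mem_VH _))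
      have h2 : b (0, p.2) ∈ (pr 0)^[k] M := by
        have h3 := b_pow 1 p.2.val
        rw [mul_one, ZMod.natCast_val, ZMod.cast_id', id_eq] at h3
        rw [h3]
        exact Subgroup.pow_mem _ hk _
      have h4 := Subgroup.mul_mem _ h1 h2
      rw [← b_add] at h4
      have e : ((p.1, 0) : X × X) + (0, p.2) = p := by ext <;> simp
      rwa [e] at h4
  -- the subgroup of the rigid elements at `0^k`
  set u : List X := List.replicate k 0 with hu
  let N : Subgroup (Perm (List X)) := M.comap (atH u)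
  have hN1 : ⁅GH, GH⁆ ≤ N := fun c hc => hM (comm_le _ (regH.at_mem u hc))
  have hN2 : ∀ g ∈ GG, ∀ n ∈ N, g * n * g⁻¹ ∈ N := by
    intro g hg n hn
    obtain ⟨m, hm, hc⟩ := conj_of_mem_pr 0 k M g (hG hg)
    show at_ u (g * n * g⁻¹) ∈ M
    rw [← hc]
    exact M.mul_mem (M.mul_mem hm hn) (M.inv_mem hm)
  -- now one level further down
  have hN3 : ⁅GG, GG⁆ ≤ N.comap (atH [0]) := by
    refine comm_le_of_gen _ _ ?_ (gen_comm _ ?_)
    · intro g hg n hn
      obtain ⟨s, hs, hs0⟩ := fr (V := ⊤) (fun _ => AddSubgroup.mem_top _) g hg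
      show at_ [0] (g * n * g⁻¹) ∈ N
      have e : at_ [0] (g * n * g⁻¹) = ψ s * at_ [0] n * (ψ s)⁻¹ := by
        rw [at_cons, at_nil, at_cons, at_nil, ← map_inv, ← map_mul, ← map_mul]
        congr 1
        funext y
        by_cases hy : y = 0
        · subst hy
          simp [hs0]
        · simp [Pi.mulSingle_eq_of_ne hy]
      rw [e]
      exact hN2 _ hs _ hn
    · intro p _ j
      show at_ [0] ⁅b p, A j⁆ ∈ N
      rw [at_comm]
      -- `bk (-1) (j, 0)` is `b (j, 0)` times an element of `⁅GH, GH⁆`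
      have h1 : bk (-1) (j, 0) = b (j, 0) * ⁅(b (j, 0))⁻¹, A (-1)⁆ := by
        have h2 := A_bk (-1) 0 (j, 0)
        rw [zero_add, ← b_eq] at h2
        rw [← h2, commutatorElement_def, A_neg]
        group
      have h3 : ⁅(b (j, 0))⁻¹, A (-1)⁆ ∈ N := hN1 (Subgroup.commutator_mem_commutator
        (Subgroup.inv_mem _ (b_mem (mem_VH _))) (A_mem _))
      set n := ⁅(b (j, 0))⁻¹, A (-1)⁆ with hn
      have h4 : ⁅b p, bk (-1) (j, 0)⁆ =
          (b p * (b (j, 0) * n * (b (j, 0))⁻¹) * (b p)⁻¹) * (b (j, 0) * n⁻¹ * (b (j, 0))⁻¹) := by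
        rw [h1, commutatorElement_def]
        have h5 : b p * b (j, 0) = b (j, 0) * b p := b_comm _ _
        have h6 : b p * (b (j, 0) * n) * (b p)⁻¹ * (b (j, 0) * n)⁻¹ =
          (b p * b (j, 0)) * n * (b p)⁻¹ * n⁻¹ * (b (j, 0))⁻¹ := by group
        have h7 : (b p * (b (j, 0) * n * (b (j, 0))⁻¹) * (b p)⁻¹) * (b (j, 0) * n⁻¹ * (b (j, 0))⁻¹)
          = (b p * b (j, 0)) * n * ((b (j, 0))⁻¹ * (b p)⁻¹ * b (j, 0)) * n⁻¹ * (b (j, 0))⁻¹ := by
          group
        have h8 : (b (j, 0))⁻¹ * (b p)⁻¹ * b (j, 0) = (b p)⁻¹ := by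
          rw [← mul_inv_rev, h5, mul_inv_rev, inv_mul_cancel_right]
        rw [h6, h7, h8]
      rw [h4]
      have hbj : b (j, 0) ∈ GG := b_mem trivial
      have hbp : b p ∈ GG := b_mem trivial
      exact N.mul_mem (hN2 _ hbp _ (hN2 _ hbj _ h3)) (hN2 _ hbj _ (N.inv_mem h3))
  -- move to all the vertices of the level
  intro v c hv hc
  obtain ⟨t, ht, htv⟩ := regH.trans v
  obtain ⟨s, hs, hconj⟩ := regH.ss.conj_at ht (List.replicate v.length 0)
  have h1 := hconj (s⁻¹ * c * s)
  rw [htv] at h1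
  have h2 : s * (s⁻¹ * c * s) * s⁻¹ = c := by group
  rw [h2] at h1
  rw [← h1]
  have h3 : s⁻¹ * c * s ∈ ⁅GG, GG⁆ := by
    have := conj_mem_comm (GG.inv_mem (GH_le hs)) hc
    rwa [inv_inv] at this
  have h4 : at_ (List.replicate v.length (0 : X)) (s⁻¹ * c * s) ∈ M := by
    rw [hv, List.replicate_add, at_append]
    exact hN3 h3
  exact M.mul_mem (M.mul_mem (hM ht) h4) (M.inv_mem (hM ht))

/-- A subgroup of the big group that contains the small one, and that together with the commutator
subgroup generates the big group, has finite index. -/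
theorem finite_index (M : Subgroup (Perm (List X))) (hM : GH ≤ M)
    (hd : b (0, 1) ∈ M ⊔ ⁅GG, GG⁆) (hMG : M ≤ GG) : M.relIndex GG ≠ 0 := by
  -- an element of `M` with the right exponent
  have h1 : ∃ g ∈ M, ∃ n σ, TL ⊤ g n σ ∧ σ.2 ≠ 0 := by
    let S : Subgroup (Perm (List X)) :=
      { carrier := {g | ∃ m ∈ M, ∃ c ∈ ⁅GG, GG⁆, g = m * c}
        mul_mem' := by
          rintro _ _ ⟨m, hm, c, hc, rfl⟩ ⟨m', hm', c', hc', rfl⟩
          refine ⟨m * m', M.mul_mem hm hm', (m'⁻¹ * c * m') * c', ?_, by group⟩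
          refine Subgroup.mul_mem _ ?_ hc'
          have := conj_mem_comm (GG.inv_mem (hMG hm')) hc
          rwa [inv_inv] at this
        one_mem' := ⟨1, M.one_mem, 1, Subgroup.one_mem _, by simp⟩
        inv_mem' := by
          rintro _ ⟨m, hm, c, hc, rfl⟩
          refine ⟨m⁻¹, M.inv_mem hm, m * c⁻¹ * m⁻¹, ?_, by group⟩
          exact conj_mem_comm (hMG hm) (Subgroup.inv_mem _ hc) }
    have hS : M ⊔ ⁅GG, GG⁆ ≤ S := sup_le (fun m hm => ⟨m, hm, 1, Subgroup.one_mem _, by simp⟩)
      (fun c hc => ⟨1, M.one_mem, c, hc, by simp⟩)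
    obtain ⟨m, hm, c, hc, he⟩ := hS hd
    obtain ⟨n, hn⟩ := TL_of_comm hc
    have h2 : TL ⊤ (b (0, 1)) 1 (0, 1) := TL.b (AddSubgroup.mem_top _)
    have h3 := h2.mul hn.inv
    have e : b (0, 1) * c⁻¹ = m := by rw [he]; group
    rw [e] at h3
    exact ⟨m, hm, _, _, h3, by simp⟩
  obtain ⟨g, hg, n, σ, hTL, hσ⟩ := h1
  obtain ⟨k, hk⟩ := descent n M hM g hg σ hσ hTL
  have h2 := rigid_mem M hM k hk
  have h3 : K GG (k + 1) ≤ M := by
    refine (K_le (k + 1)).trans ?_
    rw [Subgroup.closure_le]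
    rintro _ ⟨v, c, hv, hc, rfl⟩
    exact h2 v c hv hc
  exact fun h0 => K_relIndex selfSim ab (k + 1) (Subgroup.relIndex_eq_zero_of_le_left h3 h0)

/-! ### The small group has infinite index -/

/-- The shift of the second letter. -/
def nx (l : List (X × X × X)) (x : X) : X :=
  (l.map (fun p => if p.1 + 1 = x then p.2.1 else 0)).sum

theorem val_two (l : List (X × X × X)) (hl : ∀ p ∈ l, p.2 ∈ VH) (x y : X) :
    val l [x, y] = [x, y + nx l x] := by
  induction l with
  | nil => simp [val_nil, nx]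
  | cons p l ih =>
    have hp : p.2.2 = 0 := hl p (by simp)
    have e : nx (p :: l) x = (if p.1 + 1 = x then p.2.1 else 0) + nx l x := by
      rw [nx, List.map_cons, List.sum_cons]; rfl
    rw [val_cons, Perm.mul_apply, ih (fun p hp => hl p (by simp [hp])), e, bk, ψ_apply, mk_cons]
    have key : B p.1 p.2 x [y + nx l x] = [y + nx l x + (if p.1 + 1 = x then p.2.1 else 0)] := by
      unfold B
      by_cases h1 : x = p.1
      · have h2 : ¬ (p.1 + 1 = x) := by rw [h1]; intro h; simp at h
        rw [if_pos h1, if_neg h2, add_zero]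
        show dir _ [y + nx l x] = _
        rw [dir_cons]
        split_ifs <;> rfl
      · rw [if_neg h1]
        by_cases h2 : x = p.1 + 1
        · rw [if_pos h2, if_pos h2.symm]; rfl
        · rw [if_neg h2, if_neg (Ne.symm h2), add_zero]
          split_ifs
          · rw [hp, A_zero]; rfl
          · rfl
    rw [key]
    show x :: _ = _
    congr 2
    ring

theorem sum_nx (l : List (X × X × X)) : ∑ x, nx l x = (sm l).1 := by
  induction l with
  | nil => simp [nx, sm_nil]
  | cons p l ih =>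
    have e : ∀ x, nx (p :: l) x = (if p.1 + 1 = x then p.2.1 else 0) + nx l x := fun x => by
      rw [nx, List.map_cons, List.sum_cons]; rfl
    simp only [e, Finset.sum_add_distrib, ih, sm_cons, Finset.sum_ite_eq, Finset.mem_univ, if_true,
      Prod.fst_add]

theorem sx_nx (l : List (X × X × X)) (x : X) : (sx l x).1 = nx l (x + 1) := by
  induction l with
  | nil => simp [nx, sx]
  | cons p l ih =>
    have e : nx (p :: l) (x + 1) = (if p.1 + 1 = x + 1 then p.2.1 else 0) + nx l (x + 1) := by
      rw [nx, List.map_cons, List.sum_cons]; rfl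
    have e3 : sx (p :: l) x = (if p.1 = x then p.2 else 0) + sx l x := by
      rw [sx, List.map_cons, List.sum_cons]; rfl
    rw [e, e3, Prod.fst_add, ih]
    congr 1
    by_cases h : p.1 = x
    · simp [h]
    · have h2 : ¬ (p.1 + 1 = x + 1) := fun h3 => h (add_right_cancel h3)
      simp [h]

theorem b_notMem : b (0, 1) ∉ GH := by
  intro h
  obtain ⟨n, σ, j, l, hl, -, -, he⟩ := TL_of_mem h
  -- the root rotation is trivial
  have hj : j = 0 := by
    have h1 := congrArg (fun g : Perm (List X) => g [0, 0]) he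
    simp only [Perm.mul_apply] at h1
    rw [val_two l hl, A_cons, b_eq, bk, ψ_apply, mk_cons] at h1
    have h2 := (List.cons.inj h1).1
    simpa using h2.symm
  subst hj
  rw [A_zero, one_mul] at he
  have h2 : nx l 2 = 1 := by
    have h1 := congrArg (fun g : Perm (List X) => g [2, 0]) he
    rw [val_two l hl, b_eq, bk, ψ_apply, mk_cons] at h1
    have h3 := (List.cons.inj h1).2
    have h4 : B 0 (0, 1) 2 [0] = [1] := by
      unfold B
      rw [if_neg (by decide), if_neg (by decide), if_pos (by decide)]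
      rfl
    rw [h4] at h3
    have h5 := (List.cons.inj h3).1
    rw [zero_add] at h5
    exact h5.symm
  -- the section at `1` is trivial but has exponent one
  have h3 : secs l 1 = 1 := by
    rw [val_eq, b_eq, bk] at he
    have h4 := congrFun (ψ_injective he) 1
    rw [← h4]
    unfold B
    rw [if_neg (by decide), if_pos (by decide)]
    exact A_zero
  obtain ⟨i, k, hk, -, hsm, he2⟩ := TL_secs l hl 1
  rw [h3] at he2
  have h5 : (sm k).1 = 1 := by
    rw [hsm, sx_nx]
    exact h2
  have hi : i = 0 := by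
    have h1 := congrArg (fun g : Perm (List X) => g [0, 0]) he2
    simp only [Perm.mul_apply] at h1
    rw [val_two k hk, A_cons] at h1
    have h2 := (List.cons.inj h1).1
    simpa using h2.symm
  subst hi
  rw [A_zero, one_mul] at he2
  have h6 : ∀ x, nx k x = 0 := by
    intro x
    have h1 := congrArg (fun g : Perm (List X) => g [x, 0]) he2
    rw [val_two k hk] at h1
    have h7 := (List.cons.inj (List.cons.inj h1).2).1
    rw [zero_add] at h7
    exact h7.symm
  rw [← sum_nx, Finset.sum_eq_zero (fun x _ => h6 x)] at h5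
  exact absurd h5 (by decide)

theorem relIndex_eq_zero : GH.relIndex GG = 0 := by
  have hb : b (0, 1) ∈ GG := b_mem (AddSubgroup.mem_top _)
  have hc : ⁅b (0, 1), A 1⁆ ∈ ⁅GG, GG⁆ := Subgroup.commutator_mem_commutator hb (A_mem _)
  refine relIndex_zero (x0 := 0) selfSim regG 1 (by decide) hc ?_
  intro h
  -- the section at `0` of the commutator is the generator
  have h1 : ⁅b (0, 1), A 1⁆ = ψ (B 0 (0, 1) * B 1 (0, -1)) := by
    rw [map_mul, ← bk, ← bk, ← b_eq, commutatorElement_def]
    have h2 := A_bk 1 0 (0, -1)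
    rw [zero_add, ← b_eq, A_neg] at h2
    have h3 : b ((0 : X), (-1 : X)) = (b (0, 1))⁻¹ := by
      rw [← b_neg]; congr 1
    rw [← h2, h3]
    group
  rw [h1] at h
  have h4 := selfSim.sec h 0
  have h5 : (B 0 (0, 1) * B 1 (0, -1) : X → Perm (List X)) 0 = b (0, 1) := by
    rw [Pi.mul_apply]
    unfold B
    rw [if_pos rfl, if_neg (by decide), if_neg (by decide), if_neg (by decide), mul_one]
  rw [h5] at h4
  exact b_notMem h4

end Q21.SS.Ex
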